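import Mathlib

set_option autoImplicit false

namespace Pool.Agent.Results.MP_75e066_al.NotWeaklyNilpotent

open Set

/-- A hypergroup: a set `H` with a product `H × H → 𝒫(H)` satisfying the axioms (H1), (H2), (H3)
of the problem file. -/
structure Hypergroup (H : Type) where
  /-- the product `pq`, a subset of `H` -/
  mul : H → H → Set H
  /-- the neutral element `1` -/
  one : H
  /-- the map `s ↦ s^*` -/
  star : H → H
  /-- (H1): `p(qr) = (pq)r` -/
  assoc : ∀ p q r : H, (⋃ x ∈ mul q r, mul p x) = ⋃ x ∈ mul p q, mul x r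
  /-- (H2): `s1 = {s}` -/
  mul_one : ∀ s : H, mul s one = {s}
  /-- (H3), first half: `r ∈ pq` implies `q ∈ p^* r` -/
  mem_star_mul : ∀ p q r : H, r ∈ mul p q → q ∈ mul (star p) r
  /-- (H3), second half: `r ∈ pq` implies `p ∈ r q^*` -/
  mem_mul_star : ∀ p q r : H, r ∈ mul p q → p ∈ mul r (star q)

namespace Hypergroup

variable {H : Type} (𝓗 : Hypergroup H)

/-- The product `PQ` of two subsets, the union of all `pq` with `p ∈ P`, `q ∈ Q`. -/
def setMul (P Q : Set H) : Set H := ⋃ p ∈ P, ⋃ q ∈ Q, 𝓗.mul p q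

/-- `F` is closed: nonempty with `F^* F ⊆ F`. -/
def IsClosedSubset (F : Set H) : Prop :=
  F.Nonempty ∧ 𝓗.setMul (𝓗.star '' F) F ⊆ F

/-- `F` is normal in `E`: `Fh ⊆ hF` for every `h ∈ E`. -/
def NormalIn (F E : Set H) : Prop :=
  ∀ h ∈ E, 𝓗.setMul F {h} ⊆ 𝓗.setMul {h} F

/-- `F` is strongly normal in `E`: `h^* F h ⊆ F` for every `h ∈ E`. -/
def StronglyNormalIn (F E : Set H) : Prop :=
  ∀ h ∈ E, 𝓗.setMul (𝓗.setMul {𝓗.star h} F) {h} ⊆ F

/-- `F` is subnormal in `H`: there are closed subsets `F = F_0 ⊆ F_1 ⊆ ⋯ ⊆ F_n = H`, `n ≥ 1`,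
with each term normal in the next one. -/
def Subnormal (F : Set H) : Prop :=
  ∃ (n : ℕ) (C : ℕ → Set H), 1 ≤ n ∧ C 0 = F ∧ C n = Set.univ ∧
    (∀ i ≤ n, 𝓗.IsClosedSubset (C i)) ∧
    ∀ i < n, C i ⊆ C (i + 1) ∧ 𝓗.NormalIn (C i) (C (i + 1))

/-- `F` is strongly subnormal in `H`: there are closed subsets `F = F_0 ⊆ F_1 ⊆ ⋯ ⊆ F_n = H`,
`n ≥ 1`, with `h^* F_{i-1} h ⊆ F_{i-1}` for all `h ∈ F_i`. -/
def StronglySubnormal (F : Set H) : Prop :=
  ∃ (n : ℕ) (C : ℕ → Set H), 1 ≤ n ∧ C 0 = F ∧ C n = Set.univ ∧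
    (∀ i ≤ n, 𝓗.IsClosedSubset (C i)) ∧
    ∀ i < n, C i ⊆ C (i + 1) ∧ 𝓗.StronglyNormalIn (C i) (C (i + 1))

/-- The element `h^F = FhF` of the quotient `H//F`. -/
def cls (F : Set H) (h : H) : Set H := 𝓗.setMul (𝓗.setMul F {h}) F

/-- The product `a^F · b^F = {x^F : x ∈ aFb}` of the quotient `H//F`. -/
def quotMul (F : Set H) (a b : H) : Set (Set H) :=
  𝓗.cls F '' 𝓗.setMul (𝓗.setMul {a} F) {b}

/-- The upper central series: `Z_0 = {1}`, and `Z_{i+1}` is the set of all `h` such that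
`h^{Z_i}` lies in the centre of `H//Z_i`, that is, `h^{Z_i}` commutes with every `x^{Z_i}` and
`(h^{Z_i})^* · h^{Z_i} = {1^{Z_i}}`. -/
def upperCentral : ℕ → Set H
  | 0 => {𝓗.one}
  | i + 1 => {h : H |
      (∀ x : H, 𝓗.quotMul (upperCentral i) h x = 𝓗.quotMul (upperCentral i) x h) ∧
      𝓗.quotMul (upperCentral i) (𝓗.star h) h = {𝓗.cls (upperCentral i) 𝓗.one}}

/-- `H` is weakly nilpotent: `Z_n(H) = H` for some `n ≥ 0`. -/
def WeaklyNilpotent : Prop := ∃ n : ℕ, 𝓗.upperCentral n = Set.univ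

end Hypergroup

/-! ### The example -/

/-- The thin part `T = (ℤ/3)²`. -/
abbrev T := ZMod 3 × ZMod 3

/-- The four characters `lam g` of `T`, `g` a nonzero element of `ℤ/5`; they are pairwise
independent. -/
def lam (g : ZMod 5) (t : T) : ZMod 3 :=
  if g = 1 then t.2 else if g = 4 then t.1 else if g = 2 then t.1 - t.2 else t.1 + t.2

/-- The carrier: `T` together with four sets of size three. -/
abbrev HG := T ⊕ ({g : ZMod 5 // g ≠ 0} × ZMod 3)

/-- `r ∈ pq` in the example. -/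
def hmem : HG → HG → HG → Prop
  | .inl s, .inl t, .inl u => u = s + t
  | .inl _, .inl _, .inr _ => False
  | .inl _, .inr _, .inl _ => False
  | .inl t, .inr (g, y), .inr (k, w) => k = g ∧ w = y + lam g t
  | .inr _, .inl _, .inl _ => False
  | .inr (g, y), .inl t, .inr (k, w) => k = g ∧ w = y + lam (-g) t
  | .inr (g, x), .inr (h, y), .inl t => (g : ZMod 5) + h = 0 ∧ lam g t = x + y
  | .inr (g, _), .inr (h, _), .inr (k, _) => (g : ZMod 5) + h = k

/-- The star map in the example. -/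
def hstar : HG → HG
  | .inl t => .inl (-t)
  | .inr (g, y) => .inr (⟨-g, neg_ne_zero.mpr g.2⟩, -y)

lemma lam_add (g : ZMod 5) (s t : T) : lam g (s + t) = lam g s + lam g t := by
  unfold lam; split_ifs <;> simp <;> ring

lemma lam_neg (g : ZMod 5) (t : T) : lam g (-t) = - lam g t := by
  unfold lam; split_ifs <;> simp <;> ring

lemma lam_zero (g : ZMod 5) : lam g 0 = 0 := by
  unfold lam; split_ifs <;> simp

lemma lam_surj : ∀ g k : ZMod 5, g ≠ 0 → k ≠ 0 → g ≠ k → ∀ c d : ZMod 3,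
    ∃ t : T, lam g t = c ∧ lam k t = d := by
  decide

lemma lam_surj1 : ∀ g : ZMod 5, ∀ c : ZMod 3, ∃ t : T, lam g t = c := by
  decide

lemma exists_ne : ∀ g : ZMod 5, ∃ k : ZMod 5, k ≠ 0 ∧ k ≠ g := by decide

lemma hassoc (p q r s : HG) :
    (∃ x, hmem q r x ∧ hmem p x s) ↔ (∃ x, hmem p q x ∧ hmem x r s) := by
  rcases p with p | ⟨⟨g, hg⟩, x⟩ <;> rcases q with q | ⟨⟨h, hh⟩, y⟩ <;>
    rcases r with r | ⟨⟨k, hk⟩, z⟩ <;>
    rcases s with s | ⟨⟨m, hm⟩, w⟩ <;> simp [hmem]
  · -- T T T T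
    rw [add_assoc]
  · -- T T X X
    intro _
    rw [lam_add, add_comm (lam k p), add_assoc]
  · -- T X T X
    intro _
    rw [add_right_comm]
  · -- T X X T
    constructor
    · rintro ⟨a, b, ⟨h1, h2⟩, h3⟩
      refine ⟨h1, ?_⟩
      rw [h3, lam_add, h2]; ring
    · rintro ⟨h1, h2⟩
      refine ⟨(s - p).1, (s - p).2, ⟨h1, ?_⟩, ?_⟩
      · have : ((s - p).1, (s - p).2) = s + (-p) := by ext <;> simp [sub_eq_add_neg]
        rw [this, lam_add, lam_neg, h2]; ring
      · ext <;> simp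
  · -- T X X X
    constructor
    · rintro ⟨h1, _⟩
      exact h1.symm
    · intro h1
      refine ⟨h1.symm, ?_, w - lam (h + k) p, by ring⟩
      rw [h1]; exact hm
  · -- X T T X
    intro _
    rw [lam_add, ← add_assoc]
  · -- X T X T
    intro h1
    have h2 : -g = k := by rw [eq_comm, eq_neg_iff_add_eq_zero, add_comm]; exact h1
    rw [h2]
    constructor
    · intro h3; rw [h3]; ring
    · intro h3; rw [h3]; ring
  · -- X X T T
    constructor
    · rintro ⟨h1, h2⟩
      have h3 : -h = g := by rw [eq_comm, eq_neg_iff_add_eq_zero]; exact h1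
      rw [h3] at h2
      refine ⟨(s - r).1, (s - r).2, ⟨h1, ?_⟩, ?_⟩
      · have : ((s - r).1, (s - r).2) = s + (-r) := by ext <;> simp [sub_eq_add_neg]
        rw [this, lam_add, lam_neg, h2]; ring
      · ext <;> simp
    · rintro ⟨a, b, ⟨h1, h2⟩, h3⟩
      have h4 : -h = g := by rw [eq_comm, eq_neg_iff_add_eq_zero]; exact h1
      refine ⟨h1, ?_⟩
      rw [h3, lam_add, h2, h4]; ring
  · -- X X T X
    constructor
    · intro h1
      refine ⟨h1.symm, ?_, w - lam (-h + -g) r, by ring⟩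
      rw [h1]; exact hm
    · rintro ⟨h1, _⟩
      exact h1.symm
  · -- X X X T
    constructor
    · rintro ⟨h1, h2, _⟩
      refine ⟨by rw [add_assoc]; exact h1, ?_, ⟨lam (g + h) s - z, by ring⟩⟩
      intro h3
      rw [← add_assoc, h3, zero_add] at h1
      exact hk h1
    · rintro ⟨h1, h2, _⟩
      refine ⟨by rw [← add_assoc]; exact h1, ?_, ⟨lam g s - x, by ring⟩⟩
      intro h3
      rw [add_assoc, h3, add_zero] at h1
      exact hg h1
  · -- X X X X
    by_cases h1 : h + k = 0 <;> by_cases h2 : g + h = 0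
    · -- both zero
      have hgk : g = k := by
        have : g + h = h + k := by rw [h1, h2]
        rw [add_comm h k] at this
        exact add_right_cancel this
      have hgh : -g = h := by rw [eq_comm, eq_neg_iff_add_eq_zero, add_comm]; exact h2
      subst hgk
      simp only [h1, h2, true_and, not_true_eq_false, false_and, or_false, hgh]
      constructor
      · rintro ⟨a, b, h3, h4, h5⟩
        obtain ⟨t, ht⟩ := lam_surj1 g (x + y)
        refine ⟨t.1, t.2, ht, h4, ?_⟩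
        rw [h5, h3, ht]; ring
      · rintro ⟨a, b, h3, h4, h5⟩
        obtain ⟨t, ht⟩ := lam_surj1 h (y + z)
        refine ⟨t.1, t.2, ht, h4, ?_⟩
        rw [h5, h3, ht]; ring
    · -- h + k = 0, g + h ≠ 0
      simp only [h1, h2, true_and, not_true_eq_false, not_false_eq_true, false_and, or_false,
        false_or, exists_false, add_assoc, add_zero]
      constructor
      · rintro ⟨a, b, h3, h4, h5⟩
        exact h4.symm
      · intro h3
        have hne : h ≠ -g := by
          intro h4; apply h2; rw [h4]; ring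
        obtain ⟨t, ht1, ht2⟩ := lam_surj h (-g) hh (neg_ne_zero.mpr hg) hne (y + z) (w - x)
        refine ⟨t.1, t.2, ht1, h3.symm, ?_⟩
        rw [show (t.1, t.2) = t from rfl, ht2]; ring
    · -- h + k ≠ 0, g + h = 0
      simp only [h1, h2, true_and, not_true_eq_false, not_false_eq_true, false_and, or_false,
        false_or, exists_false, ← add_assoc, zero_add]
      constructor
      · intro h3
        have hne : g ≠ k := by
          intro h4; apply h1; rw [← h4, add_comm]; exact h2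
        obtain ⟨t, ht1, ht2⟩ := lam_surj g k hg hk hne (x + y) (w - z)
        refine ⟨t.1, t.2, ht1, h3.symm, ?_⟩
        rw [show (t.1, t.2) = t from rfl, ht2]; ring
      · rintro ⟨a, b, h3, h4, h5⟩
        exact h4.symm
    · simp only [h1, h2, false_and, exists_false, not_false_eq_true, true_and, false_or, add_assoc]

/-- The example hypergroup, with 21 elements. -/
def ex21 : Hypergroup HG where
  mul p q := {r | hmem p q r}
  one := .inl 0
  star := hstar
  assoc p q r := by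
    ext s
    simp only [Set.mem_iUnion, Set.mem_ofPred_eq, exists_prop]
    exact hassoc p q r s
  mul_one s := by
    ext r
    rcases s with s | ⟨⟨g, hg⟩, x⟩ <;> rcases r with r | ⟨⟨k, hk⟩, z⟩ <;>
      simp [hmem, lam_zero]
  mem_star_mul p q r := by
    rcases p with p | ⟨⟨g, hg⟩, x⟩ <;> rcases q with q | ⟨⟨h, hh⟩, y⟩ <;>
      rcases r with r | ⟨⟨k, hk⟩, z⟩ <;> simp [hmem, hstar]
    · rintro rfl; abel
    · rintro rfl rfl
      refine ⟨rfl, ?_⟩
      rw [lam_neg]; ring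
    · rintro rfl rfl
      refine ⟨by ring, ?_⟩
      ring
    · rintro h1 h2
      have h3 : h = -g := by rw [eq_neg_iff_add_eq_zero, add_comm]; exact h1
      refine ⟨h3, ?_⟩
      rw [h2]; ring
    · rintro rfl; ring
  mem_mul_star p q r := by
    rcases p with p | ⟨⟨g, hg⟩, x⟩ <;> rcases q with q | ⟨⟨h, hh⟩, y⟩ <;>
      rcases r with r | ⟨⟨k, hk⟩, z⟩ <;> simp [hmem, hstar]
    · rintro rfl; abel
    · rintro rfl rfl
      refine ⟨by ring, ?_⟩
      ring
    · rintro rfl rfl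
      refine ⟨rfl, ?_⟩
      rw [lam_neg]; ring
    · rintro h1 h2
      have h3 : g = -h := by rw [eq_neg_iff_add_eq_zero]; exact h1
      refine ⟨h3, ?_⟩
      rw [← h3, h2]; ring
    · rintro rfl; ring

lemma mem_ex21 (p q r : HG) : r ∈ ex21.mul p q ↔ hmem p q r := Iff.rfl

lemma mem_setMul {H : Type} (𝓗 : Hypergroup H) (P Q : Set H) (r : H) :
    r ∈ 𝓗.setMul P Q ↔ ∃ p ∈ P, ∃ q ∈ Q, r ∈ 𝓗.mul p q := by
  simp [Hypergroup.setMul]

lemma self_mem_mul_one (x : HG) : x ∈ ex21.mul x (.inl 0) := by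
  have := ex21.mul_one x
  change ex21.mul x (.inl 0) = {x} at this
  rw [this]; rfl

lemma hstar_hstar (x : HG) : hstar (hstar x) = x := by
  rcases x with t | ⟨⟨g, hg⟩, y⟩ <;> simp [hstar]

lemma closed_one {F : Set HG} (hF : ex21.IsClosedSubset F) : (.inl 0 : HG) ∈ F := by
  obtain ⟨⟨x, hx⟩, hF⟩ := hF
  apply hF
  rw [mem_setMul]
  refine ⟨hstar x, ⟨x, hx, rfl⟩, x, hx, ?_⟩
  exact ex21.mem_star_mul _ _ _ (self_mem_mul_one x)

lemma closed_star {F : Set HG} (hF : ex21.IsClosedSubset F) {x : HG} (hx : x ∈ F) :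
    hstar x ∈ F := by
  have h1 := closed_one hF
  obtain ⟨_, hF⟩ := hF
  apply hF
  rw [mem_setMul]
  refine ⟨hstar x, ⟨x, hx, rfl⟩, .inl 0, h1, ?_⟩
  have := ex21.mul_one (hstar x)
  change hstar x ∈ ex21.mul (hstar x) ex21.one
  rw [this]
  rfl

lemma closed_mul {F : Set HG} (hF : ex21.IsClosedSubset F) {x y z : HG} (hx : x ∈ F) (hy : y ∈ F)
    (hz : hmem x y z) : z ∈ F := by
  have h1 := closed_star hF hx
  obtain ⟨_, hF⟩ := hF
  apply hF
  rw [mem_setMul]
  refine ⟨x, ⟨hstar x, h1, hstar_hstar x⟩, y, hy, hz⟩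

/-- The thin part as a subset. -/
def thin : Set HG := Set.range Sum.inl

lemma zmod5_cases : ∀ g k : ZMod 5, g ≠ 0 → k ≠ 0 →
    k = g ∨ k = g + g ∨ k = g + (g + g) ∨ k = g + (g + (g + g)) := by decide

lemma zmod5_ne : ∀ g : ZMod 5, g ≠ 0 → g ≠ -g := by decide

lemma zmod5_2 : ∀ g : ZMod 5, g ≠ 0 → g + g ≠ 0 := by decide

lemma zmod5_3 : ∀ g : ZMod 5, g ≠ 0 → g + (g + g) ≠ 0 := by decide

lemma closed_eq_univ {F : Set HG} (hF : ex21.IsClosedSubset F) (g : ZMod 5) (hg : g ≠ 0)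
    (y : ZMod 3) (hx : (.inr (⟨g, hg⟩, y) : HG) ∈ F) : F = Set.univ := by
  -- kernels of `lam g` and `lam (-g)` lie in `F`
  have hs := closed_star hF hx
  have k1 : ∀ t : T, lam g t = 0 → (.inl t : HG) ∈ F := by
    intro t ht
    refine closed_mul hF hx hs ?_
    simp [hstar, hmem, ht]
  have k2 : ∀ t : T, lam (-g) t = 0 → (.inl t : HG) ∈ F := by
    intro t ht
    refine closed_mul hF hs hx ?_
    simp [hstar, hmem, ht]
  have hT : ∀ t : T, (.inl t : HG) ∈ F := by
    intro t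
    obtain ⟨s, hs1, hs2⟩ := lam_surj g (-g) hg (neg_ne_zero.mpr hg) (zmod5_ne g hg) 0 (lam (-g) t)
    have h1 := k1 s hs1
    have h2 : (.inl (t + -s) : HG) ∈ F := by
      apply k2
      rw [lam_add, lam_neg, hs2]; ring
    refine closed_mul hF h1 h2 ?_
    change t = s + (t + -s)
    abel
  have hX : ∀ z : ZMod 3, (.inr (⟨g, hg⟩, z) : HG) ∈ F := by
    intro z
    obtain ⟨t, ht⟩ := lam_surj1 g (z - y)
    refine closed_mul hF (hT t) hx ?_
    refine ⟨rfl, ?_⟩
    rw [ht]; ring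
  have step : ∀ (k : ZMod 5) (hk : k ≠ 0) (hgk : g + k ≠ 0),
      (∀ z : ZMod 3, (.inr (⟨k, hk⟩, z) : HG) ∈ F) →
      ∀ z : ZMod 3, (.inr (⟨g + k, hgk⟩, z) : HG) ∈ F := by
    intro k hk hgk h z
    refine closed_mul hF (hX 0) (h 0) ?_
    change g + k = g + k
    rfl
  have hX2 := step g hg (zmod5_2 g hg) hX
  have hX3 := step (g + g) (zmod5_2 g hg) (zmod5_3 g hg) hX2
  rw [Set.eq_univ_iff_forall]
  rintro (t | ⟨⟨k, hk⟩, z⟩)
  · exact hT t
  · rcases zmod5_cases g k hg hk with h | h | h | h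
    · subst h; exact hX z
    · subst h; exact hX2 z
    · subst h; exact hX3 z
    · subst h; exact step _ (zmod5_3 g hg) hk hX3 z

lemma closed_cases {F : Set HG} (hF : ex21.IsClosedSubset F) : F ⊆ thin ∨ F = Set.univ := by
  by_cases h : F ⊆ thin
  · exact Or.inl h
  · right
    rw [Set.not_subset] at h
    obtain ⟨x, hx, hx2⟩ := h
    rcases x with t | ⟨⟨g, hg⟩, y⟩
    · exact absurd ⟨t, rfl⟩ hx2
    · exact closed_eq_univ hF g hg y hx

lemma thin_closed : ex21.IsClosedSubset thin := by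
  refine ⟨⟨.inl 0, 0, rfl⟩, ?_⟩
  intro r hr
  rw [mem_setMul] at hr
  obtain ⟨p, ⟨p', ⟨s, rfl⟩, rfl⟩, q, ⟨t, rfl⟩, h⟩ := hr
  rcases r with u | ⟨k, w⟩
  · exact ⟨u, rfl⟩
  · exact h.elim

lemma univ_closed : ex21.IsClosedSubset Set.univ :=
  ⟨⟨.inl 0, trivial⟩, fun _ _ => trivial⟩

lemma thin_sn : ex21.StronglyNormalIn thin Set.univ := by
  intro h _ r hr
  rw [mem_setMul] at hr
  obtain ⟨p, hp, q, hq, hr⟩ := hr
  rw [mem_setMul] at hp
  obtain ⟨p', hp', t', ⟨t, rfl⟩, hp⟩ := hp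
  rw [Set.mem_singleton_iff] at hp' hq
  subst hp' hq
  rw [mem_ex21] at hp hr
  change hmem (hstar q) (.inl t) p at hp
  rcases r with u | ⟨⟨k, hk⟩, w⟩
  · exact ⟨u, rfl⟩
  · exfalso
    rcases q with s | ⟨⟨g, hg⟩, y⟩
    · rcases p with v | ⟨m, z⟩
      · exact hr
      · exact hp
    · rcases p with v | ⟨⟨m, hm⟩, z⟩
      · exact hp
      · simp only [hstar, hmem, Subtype.mk.injEq] at hp hr
        rw [hp.1] at hr
        apply hk
        rw [← hr]; ring

lemma thin_n : ex21.NormalIn thin Set.univ := by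
  intro h _ r hr
  rw [mem_setMul] at hr ⊢
  obtain ⟨p, ⟨t, rfl⟩, q, hq, hr⟩ := hr
  rw [Set.mem_singleton_iff] at hq
  subst hq
  rw [mem_ex21] at hr
  rcases q with s | ⟨⟨g, hg⟩, y⟩
  · refine ⟨.inl s, rfl, .inl t, ⟨t, rfl⟩, ?_⟩
    rcases r with u | ⟨m, z⟩
    · change u = t + s at hr
      change u = s + t
      rw [hr, add_comm]
    · exact hr
  · rcases r with u | ⟨⟨m, hm⟩, z⟩
    · exact hr.elim
    · obtain ⟨t', ht'⟩ := lam_surj1 (-g) (lam g t)
      refine ⟨.inr (⟨g, hg⟩, y), rfl, .inl t', ⟨t', rfl⟩, ?_⟩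
      refine ⟨hr.1, ?_⟩
      change z = y + lam (-g) t'
      rw [ht']
      exact hr.2

lemma sub_sn {F : Set HG} (hF : F ⊆ thin) : ex21.StronglyNormalIn F thin := by
  rintro h ⟨s, rfl⟩ r hr
  rw [mem_setMul] at hr
  obtain ⟨p, hp, q, hq, hr⟩ := hr
  rw [mem_setMul] at hp
  obtain ⟨p', hp', t', ht', hp⟩ := hp
  rw [Set.mem_singleton_iff] at hp' hq
  subst hp' hq
  obtain ⟨t, rfl⟩ := hF ht'
  rw [mem_ex21] at hp hr
  rcases p with v | ⟨m, z⟩
  · rcases r with u | ⟨k, w⟩
    · change v = -s + t at hp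
      change u = v + s at hr
      have : u = t := by rw [hr, hp]; abel
      rw [this]; exact ht'
    · exact hr.elim
  · exact hp.elim

lemma sub_n {F : Set HG} (hF : F ⊆ thin) : ex21.NormalIn F thin := by
  rintro h ⟨s, rfl⟩ r hr
  rw [mem_setMul] at hr ⊢
  obtain ⟨p, hp, q, hq, hr⟩ := hr
  rw [Set.mem_singleton_iff] at hq
  subst hq
  obtain ⟨t, rfl⟩ := hF hp
  refine ⟨.inl s, rfl, .inl t, hp, ?_⟩
  rw [mem_ex21] at hr ⊢
  rcases r with u | ⟨k, w⟩
  · change u = t + s at hr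
    change u = s + t
    rw [hr, add_comm]
  · exact hr.elim

/-- The chain `F ⊆ T ⊆ H`. -/
def chain (F : Set HG) : ℕ → Set HG
  | 0 => F
  | 1 => thin
  | _ + 2 => Set.univ

lemma closed_ssn {F : Set HG} (hF : ex21.IsClosedSubset F) : ex21.StronglySubnormal F := by
  rcases closed_cases hF with h | h
  · refine ⟨2, chain F, by norm_num, rfl, rfl, ?_, ?_⟩
    · intro i hi
      interval_cases i
      · exact hF
      · exact thin_closed
      · exact univ_closed
    · intro i hi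
      interval_cases i
      · exact ⟨h, sub_sn h⟩
      · exact ⟨Set.subset_univ _, thin_sn⟩
  · subst h
    exact ⟨1, fun _ => Set.univ, le_rfl, rfl, rfl, fun _ _ => univ_closed,
      fun _ _ => ⟨subset_rfl, fun _ _ _ _ => trivial⟩⟩

lemma closed_sn {F : Set HG} (hF : ex21.IsClosedSubset F) : ex21.Subnormal F := by
  rcases closed_cases hF with h | h
  · refine ⟨2, chain F, by norm_num, rfl, rfl, ?_, ?_⟩
    · intro i hi
      interval_cases i
      · exact hF
      · exact thin_closed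
      · exact univ_closed
    · intro i hi
      interval_cases i
      · exact ⟨h, sub_n h⟩
      · exact ⟨Set.subset_univ _, thin_n⟩
  · subst h
    refine ⟨1, fun _ => Set.univ, le_rfl, rfl, rfl, fun _ _ => univ_closed,
      fun _ _ => ⟨subset_rfl, ?_⟩⟩
    intro h _ r _
    rw [mem_setMul]
    -- `r ∈ 1 r ⊆ h (h^* r)`
    have h2 : (.inl 0 : HG) ∈ ex21.mul h (hstar h) := by
      have := ex21.mem_star_mul (hstar h) (.inl 0) (hstar h) (self_mem_mul_one (hstar h))
      change (.inl 0 : HG) ∈ ex21.mul (hstar (hstar h)) (hstar h) at this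
      rw [hstar_hstar] at this
      exact this
    have h3 : ∃ x, hmem h (hstar h) x ∧ hmem x r r := by
      refine ⟨.inl 0, h2, ?_⟩
      rcases r with u | ⟨⟨k, hk⟩, w⟩ <;> simp [hmem, lam_zero]
    rw [← hassoc] at h3
    obtain ⟨x, _, hx⟩ := h3
    exact ⟨h, rfl, x, trivial, hx⟩

/-! ### The upper central series -/

lemma one_mul' (x : HG) : ex21.mul (.inl 0) x = {x} := by
  ext r
  rcases x with s | ⟨⟨g, hg⟩, x⟩ <;> rcases r with r | ⟨⟨k, hk⟩, z⟩ <;>
    simp [mem_ex21, hmem, lam_zero]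

lemma mul_one' (x : HG) : ex21.mul x (.inl 0) = {x} := ex21.mul_one x

lemma setMul_one_left (P : Set HG) : ex21.setMul {(.inl 0 : HG)} P = P := by
  ext r
  rw [mem_setMul]
  constructor
  · rintro ⟨p, rfl, q, hq, hr⟩
    rw [one_mul', Set.mem_singleton_iff] at hr
    rw [hr]; exact hq
  · intro hr
    refine ⟨_, rfl, r, hr, ?_⟩
    rw [one_mul']; rfl

lemma setMul_one_right (P : Set HG) : ex21.setMul P {(.inl 0 : HG)} = P := by
  ext r
  rw [mem_setMul]
  constructor
  · rintro ⟨p, hp, q, rfl, hr⟩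
    rw [mul_one'] at hr
    rw [Set.mem_singleton_iff] at hr
    rw [hr]; exact hp
  · intro hr
    exact ⟨r, hr, _, rfl, self_mem_mul_one r⟩

lemma setMul_singletons (a b : HG) : ex21.setMul {a} {b} = ex21.mul a b := by
  ext r; rw [mem_setMul]; simp

lemma cls_one (h : HG) : ex21.cls {(.inl 0 : HG)} h = {h} := by
  unfold Hypergroup.cls
  rw [setMul_one_left, setMul_one_right]

lemma quotMul_one (a b : HG) :
    ex21.quotMul {(.inl 0 : HG)} a b = (fun x => ({x} : Set HG)) '' ex21.mul a b := by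
  unfold Hypergroup.quotMul
  rw [setMul_one_right, setMul_singletons]
  apply Set.image_congr
  intro x _
  exact cls_one x

lemma quotMul_inj {a b c d : HG} (h : ex21.quotMul {(.inl 0 : HG)} a b =
    ex21.quotMul {(.inl 0 : HG)} c d) : ex21.mul a b = ex21.mul c d := by
  rw [quotMul_one, quotMul_one] at h
  exact Set.image_injective.mpr (fun x y hxy => by simpa using hxy) h

lemma ker_nontrivial : ∀ g : ZMod 5, ∃ t : T, t ≠ 0 ∧ lam g t = 0 := by decide

lemma commute_zero : ∀ t : T, lam 1 t = lam (-1) t → lam 2 t = lam (-2) t → t = 0 := by decide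

lemma upper_eq (n : ℕ) : ex21.upperCentral n = {(.inl 0 : HG)} := by
  induction n with
  | zero => rfl
  | succ n ih =>
    unfold Hypergroup.upperCentral
    rw [ih]
    ext h
    simp only [Set.mem_ofPred_eq, Set.mem_singleton_iff]
    constructor
    · rintro ⟨h1, h2⟩
      have h3 : ex21.mul (hstar h) h = {(.inl 0 : HG)} := by
        change ex21.quotMul {(.inl 0 : HG)} (hstar h) h = {ex21.cls {(.inl 0 : HG)} (.inl 0)} at h2
        rw [quotMul_one, cls_one] at h2
        have hinj : Function.Injective (fun x : HG => ({x} : Set HG)) :=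
          fun x y hxy => by simpa using hxy
        apply Set.image_injective.mpr hinj
        rw [h2]; simp
      rcases h with t | ⟨⟨g, hg⟩, y⟩
      · have key : ∀ g : ZMod 5, (hg : g ≠ 0) → lam g t = lam (-g) t := by
          intro g hg
          have h4 := quotMul_inj (h1 (.inr (⟨g, hg⟩, 0)))
          have h5 : (.inr (⟨g, hg⟩, lam g t) : HG) ∈ ex21.mul (.inl t) (.inr (⟨g, hg⟩, 0)) := by
            rw [mem_ex21]; simp [hmem]
          rw [h4, mem_ex21] at h5
          simpa [hmem] using h5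
        have := commute_zero t (key 1 (by decide)) (key 2 (by decide))
        rw [this]
      · exfalso
        obtain ⟨t, ht, ht2⟩ := ker_nontrivial (-g)
        have h5 : (.inl t : HG) ∈ ex21.mul (hstar (.inr (⟨g, hg⟩, y))) (.inr (⟨g, hg⟩, y)) := by
          rw [mem_ex21]; simp [hmem, hstar, ht2]
        rw [h3, Set.mem_singleton_iff] at h5
        exact ht (Sum.inl_injective h5)
    · rintro rfl
      refine ⟨fun x => ?_, ?_⟩
      · rw [quotMul_one, quotMul_one, one_mul', mul_one']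
      · change ex21.quotMul {(.inl 0 : HG)} (hstar (.inl 0)) (.inl 0) =
          {ex21.cls {(.inl 0 : HG)} (.inl 0)}
        rw [quotMul_one, cls_one, mul_one']
        simp [hstar]

/-- There is a finite hypergroup all of whose closed subsets are subnormal, and even strongly
subnormal, which is not weakly nilpotent. -/
theorem result : ∃ (H : Type) (_ : Fintype H) (𝓗 : Hypergroup H),
    (∀ F : Set H, 𝓗.IsClosedSubset F → 𝓗.Subnormal F ∧ 𝓗.StronglySubnormal F) ∧
    ¬ 𝓗.WeaklyNilpotent := by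
  refine ⟨HG, inferInstance, ex21, fun F hF => ⟨closed_sn hF, closed_ssn hF⟩, ?_⟩
  rintro ⟨n, hn⟩
  rw [upper_eq] at hn
  have : (.inl (1, 0) : HG) ∈ ({(.inl 0 : HG)} : Set HG) := by rw [hn]; trivial
  rw [Set.mem_singleton_iff] at this
  have h2 := Sum.inl_injective this
  exact absurd h2 (by decide)

end Pool.Agent.Results.MP_75e066_al.NotWeaklyNilpotent
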